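import Pool.Agent.K1H46.CP.Stm

/-! # The discriminant of a cubic equation and the discriminant of its field

`t_DEG`: a cubic irrationality satisfies no equation of degree two over the integers.
`t_IND`: the discriminant of the polynomial is a nonzero square times the discriminant of the
field. -/

set_option autoImplicit false

namespace Pool.Agent.K1H22.CP

open NumberField IntermediateField Polynomial Pool.Agent.K1H46.CP

/-- the rational form of `S_DEG` -/
theorem deg_rat (K : Type) [Field K] [NumberField K] (h3 : Module.finrank ℚ K = 3) (t : K)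
    (ht : ∀ q : ℚ, t ≠ algebraMap ℚ K q) (u v w : ℚ)
    (h : algebraMap ℚ K u * t ^ 2 + algebraMap ℚ K v * t + algebraMap ℚ K w = 0) :
    u = 0 ∧ v = 0 ∧ w = 0 := by
  have hint : IsIntegral ℚ t := Algebra.IsIntegral.isIntegral _
  have hdeg : (minpoly ℚ t).natDegree = 3 := by
    rw [← adjoin.finrank hint]
    have hdvd : Module.finrank ℚ ℚ⟮t⟯ ∣ 3 := by
      rw [← h3]
      exact Dvd.intro _ (Module.finrank_mul_finrank ℚ ℚ⟮t⟯ K)
    rcases (Nat.dvd_prime Nat.prime_three).1 hdvd with h1 | h1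
    · exfalso
      rw [adjoin.finrank hint] at h1
      have h2 := (minpoly.natDegree_eq_one_iff (A := ℚ) (x := t)).1 h1
      obtain ⟨q, hq⟩ := h2
      exact ht q hq.symm
    · exact h1
  let p : ℚ[X] := C u * X ^ 2 + C v * X + C w
  have hp : aeval t p = 0 := by
    simp only [p, map_add, map_mul, aeval_C, map_pow, aeval_X]
    exact h
  have hp0 : p = 0 := by
    by_contra hne
    have h4 := natDegree_le_natDegree (minpoly.degree_le_of_ne_zero ℚ t hne hp)
    have h5 : p.natDegree ≤ 2 := natDegree_quadratic_le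
    omega
  have hc : ∀ n, p.coeff n = 0 := by intro n; rw [hp0]; simp
  have h0 := hc 0
  have h1 := hc 1
  have h2 := hc 2
  simp only [p, coeff_add, coeff_C_mul, coeff_X_pow, coeff_X, coeff_C] at h0 h1 h2
  norm_num at h0 h1 h2
  exact ⟨h2, h1, h0⟩

theorem t_DEG : S_DEG := by
  intro K _ _ h3 t ht u v w h
  have := deg_rat K h3 t ht u v w (by
    simpa using h)
  refine ⟨?_, ?_, ?_⟩
  · exact_mod_cast this.1
  · exact_mod_cast this.2.1
  · exact_mod_cast this.2.2

/-- the discriminant of `1, a t, a t ^ 2 + b t` in terms of the coefficients -/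
theorem discr_basis (K : Type) [Field K] [NumberField K] (a b c d : ℤ) (w1 w2 : K)
    (e : Module.Basis (Fin 3) ℚ K) (he : (e : Fin 3 → K) = ![1, w1, w2])
    (h11 : w1 * w1 = (a : K) * w2 - (b : K) * w1)
    (h12 : w1 * w2 = -(c : K) * w1 - (a : K) * d)
    (h22 : w2 * w2 = -(c : K) * w2 - (d : K) * w1 - (b : K) * d) :
    Algebra.discr ℚ (e : Fin 3 → K) = ((dsc a b c d : ℤ) : ℚ) := by
  have e0 : e 0 = 1 := by rw [he]; rfl
  have e1 : e 1 = w1 := by rw [he]; rfl
  have e2 : e 2 = w2 := by rw [he]; rfl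
  -- coordinates
  have hrep : ∀ x y z : ℚ, ∀ i : Fin 3,
      e.repr (algebraMap ℚ K x + algebraMap ℚ K y * w1 + algebraMap ℚ K z * w2) i = ![x, y, z] i := by
    intro x y z i
    have h1 : algebraMap ℚ K x + algebraMap ℚ K y * w1 + algebraMap ℚ K z * w2 =
        ∑ j : Fin 3, ![x, y, z] j • e j := by
      rw [Fin.sum_univ_three, e0, e1, e2]
      simp [Algebra.smul_def]
    rw [h1, e.repr_sum_self]
  have htr : ∀ u : K, Algebra.trace ℚ K u = e.repr (u * 1) 0 + e.repr (u * w1) 1 + e.repr (u * w2) 2 := by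
    intro u
    rw [Algebra.trace_eq_matrix_trace e, Matrix.trace, Fin.sum_univ_three]
    simp only [Matrix.diag_apply, Algebra.leftMulMatrix_eq_repr_mul, e0, e1, e2]
  have t1 : Algebra.trace ℚ K 1 = 3 := by
    rw [htr]
    have g0 : (1 : K) * 1 = algebraMap ℚ K 1 + algebraMap ℚ K 0 * w1 + algebraMap ℚ K 0 * w2 := by
      simp
    have g1 : (1 : K) * w1 = algebraMap ℚ K 0 + algebraMap ℚ K 1 * w1 + algebraMap ℚ K 0 * w2 := by
      simp
    have g2 : (1 : K) * w2 = algebraMap ℚ K 0 + algebraMap ℚ K 0 * w1 + algebraMap ℚ K 1 * w2 := by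
      simp
    rw [g0, g1, g2, hrep, hrep, hrep]
    simp
    norm_num
  have tw1 : Algebra.trace ℚ K w1 = -(b : ℚ) := by
    rw [htr]
    have g0 : w1 * 1 = algebraMap ℚ K 0 + algebraMap ℚ K 1 * w1 + algebraMap ℚ K 0 * w2 := by
      simp
    have g1 : w1 * w1 = algebraMap ℚ K 0 + algebraMap ℚ K (-b) * w1 + algebraMap ℚ K a * w2 := by
      rw [h11]; simp; ring
    have g2 : w1 * w2 = algebraMap ℚ K (-(a * d)) + algebraMap ℚ K (-c) * w1 +
        algebraMap ℚ K 0 * w2 := by
      rw [h12]; simp; ring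
    rw [g0, g1, g2, hrep, hrep, hrep]
    simp
  have tw2 : Algebra.trace ℚ K w2 = -2 * (c : ℚ) := by
    rw [htr]
    have g0 : w2 * 1 = algebraMap ℚ K 0 + algebraMap ℚ K 0 * w1 + algebraMap ℚ K 1 * w2 := by
      simp
    have g1 : w2 * w1 = algebraMap ℚ K (-(a * d)) + algebraMap ℚ K (-c) * w1 +
        algebraMap ℚ K 0 * w2 := by
      rw [mul_comm, h12]; simp; ring
    have g2 : w2 * w2 = algebraMap ℚ K (-(b * d)) + algebraMap ℚ K (-d) * w1 +
        algebraMap ℚ K (-c) * w2 := by
      rw [h22]; simp; ring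
    rw [g0, g1, g2, hrep, hrep, hrep]
    simp
    ring
  have hlin : ∀ x y z : ℚ, Algebra.trace ℚ K (algebraMap ℚ K x + algebraMap ℚ K y * w1 +
      algebraMap ℚ K z * w2) = 3 * x - b * y - 2 * c * z := by
    intro x y z
    have g : algebraMap ℚ K x + algebraMap ℚ K y * w1 + algebraMap ℚ K z * w2 =
        x • (1 : K) + y • w1 + z • w2 := by
      simp [Algebra.smul_def]
    rw [g, map_add, map_add, map_smul, map_smul, map_smul, t1, tw1, tw2]
    simp only [smul_eq_mul]
    ring
  have t11 : Algebra.trace ℚ K (w1 * w1) = (b : ℚ) ^ 2 - 2 * a * c := by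
    have g1 : w1 * w1 = algebraMap ℚ K 0 + algebraMap ℚ K (-b) * w1 + algebraMap ℚ K a * w2 := by
      rw [h11]; simp; ring
    rw [g1, hlin]; ring
  have t12 : Algebra.trace ℚ K (w1 * w2) = (b : ℚ) * c - 3 * a * d := by
    have g2 : w1 * w2 = algebraMap ℚ K (-(a * d)) + algebraMap ℚ K (-c) * w1 +
        algebraMap ℚ K 0 * w2 := by
      rw [h12]; simp; ring
    rw [g2, hlin]; ring
  have t22 : Algebra.trace ℚ K (w2 * w2) = 2 * (c : ℚ) ^ 2 - 2 * b * d := by
    have g2 : w2 * w2 = algebraMap ℚ K (-(b * d)) + algebraMap ℚ K (-d) * w1 +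
        algebraMap ℚ K (-c) * w2 := by
      rw [h22]; simp; ring
    rw [g2, hlin]; ring
  rw [Algebra.discr_def, Matrix.det_fin_three]
  simp only [Algebra.traceMatrix_apply, Algebra.traceForm_apply, e0, e1, e2, one_mul, mul_one]
  rw [mul_comm w2 w1, t1, tw1, tw2, t11, t12, t22]
  unfold dsc
  push_cast
  ring

theorem t_IND : S_IND := by
  intro K _ _ h3 t ht a b c d ha heq
  have haK : (a : K) ≠ 0 := by exact_mod_cast ha
  -- the two integers
  obtain ⟨w1, hw1⟩ : ∃ w : K, w = (a : K) * t := ⟨_, rfl⟩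
  obtain ⟨w2, hw2⟩ : ∃ w : K, w = (a : K) * t ^ 2 + (b : K) * t := ⟨_, rfl⟩
  have h11 : w1 * w1 = (a : K) * w2 - (b : K) * w1 := by rw [hw1, hw2]; ring
  have h12 : w1 * w2 = -(c : K) * w1 - (a : K) * d := by
    rw [hw1, hw2]; linear_combination (a : K) * heq
  have h22 : w2 * w2 = -(c : K) * w2 - (d : K) * w1 - (b : K) * d := by
    rw [hw1, hw2]; linear_combination ((a : K) * t + b) * heq
  -- linear independence
  have hli : LinearIndependent ℚ ![(1 : K), w1, w2] := by
    rw [Fintype.linearIndependent_iff]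
    intro g hg
    rw [Fin.sum_univ_three] at hg
    simp only [Matrix.cons_val_zero, Matrix.cons_val_one, Matrix.cons_val, Algebra.smul_def,
      mul_one] at hg
    have h1 := deg_rat K h3 t ht (g 2 * a) (g 1 * a + g 2 * b) (g 0) (by
      rw [hw1, hw2] at hg
      simp only [map_mul, map_add, map_intCast]
      linear_combination hg)
    have haQ : (a : ℚ) ≠ 0 := by exact_mod_cast ha
    have g2 : g 2 = 0 := by
      rcases mul_eq_zero.1 h1.1 with h | h
      · exact h
      · exact absurd h haQ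
    have g1 : g 1 = 0 := by
      have := h1.2.1
      rw [g2, zero_mul, add_zero] at this
      rcases mul_eq_zero.1 this with h | h
      · exact h
      · exact absurd h haQ
    intro i
    fin_cases i
    · exact h1.2.2
    · exact g1
    · exact g2
  have hcard : Fintype.card (Fin 3) = Module.finrank ℚ K := by rw [h3]; rfl
  let e : Module.Basis (Fin 3) ℚ K := basisOfLinearIndependentOfCardEqFinrank hli hcard
  have he : (e : Fin 3 → K) = ![1, w1, w2] := coe_basisOfLinearIndependentOfCardEqFinrank hli hcard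
  have hd := discr_basis K a b c d w1 w2 e he h11 h12 h22
  -- integrality
  have hi1 : IsIntegral ℤ w1 := by
    refine ⟨X ^ 3 + C b * X ^ 2 + C (a * c) * X + C (a ^ 2 * d), by monicity!, ?_⟩
    simp only [eval₂_add, eval₂_mul, eval₂_C, eval₂_X, eval₂_pow]
    simp only [eq_intCast, Int.cast_mul, Int.cast_pow]
    rw [hw1]
    linear_combination (a : K) ^ 2 * heq
  have hi2 : IsIntegral ℤ w2 := by
    have h5 : IsIntegral ℤ (w2 + (c : K)) := by
      refine ⟨X ^ 3 + C (-c) * X ^ 2 + C (b * d) * X + C (-(a * d ^ 2)), by monicity!, ?_⟩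
      simp only [eval₂_add, eval₂_mul, eval₂_C, eval₂_X, eval₂_pow]
      simp only [eq_intCast, Int.cast_mul, Int.cast_pow, Int.cast_neg]
      rw [hw2]
      by_cases ht0 : t = 0
      · exact absurd ht0 (by simpa using ht 0)
      · have h6 : ((a : K) * t ^ 2 + (b : K) * t + c) * t = -(d : K) := by linear_combination heq
        have h7 : ((a : K) * t ^ 2 + (b : K) * t + c) = -(d : K) / t := by
          rw [eq_div_iff ht0, h6]
        rw [h7]
        field_simp
        linear_combination (-(d : K) ^ 2) * heq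
    have h6 : w2 = (w2 + (c : K)) - algebraMap ℤ K c := by simp
    rw [h6]
    exact h5.sub isIntegral_algebraMap
  -- the integral basis
  have hc' : Fintype.card (Module.Free.ChooseBasisIndex ℤ (𝓞 K)) = 3 := by
    rw [← Module.finrank_eq_card_basis (RingOfIntegers.basis K), RingOfIntegers.rank, h3]
  let σ : Module.Free.ChooseBasisIndex ℤ (𝓞 K) ≃ Fin 3 := Fintype.equivFinOfCardEq hc'
  let b' : Module.Basis (Fin 3) ℚ K := (integralBasis K).reindex σ
  have hint : ∀ j : Fin 3, IsIntegral ℤ (e j) := by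
    intro j
    rw [he]
    fin_cases j
    · exact isIntegral_one
    · exact hi1
    · exact hi2
  have hMex : ∀ i j : Fin 3, ∃ m : ℤ, (m : ℚ) = b'.toMatrix e i j := by
    intro i j
    rw [Module.Basis.toMatrix_apply]
    change ∃ m : ℤ, (m : ℚ) = ((integralBasis K).reindex σ).repr (e j) i
    rw [Module.Basis.repr_reindex_apply]
    have h1 : e j ∈ Submodule.span ℤ (Set.range (integralBasis K)) := by
      rw [mem_span_integralBasis]
      exact ⟨⟨e j, hint j⟩, rfl⟩
    have h2 := ((integralBasis K).mem_span_iff_repr_mem ℤ _).1 h1 (σ.symm i)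
    obtain ⟨m, hm⟩ := h2
    exact ⟨m, by simpa using hm⟩
  choose M hM' using hMex
  have hM : b'.toMatrix e = (Matrix.of M).map (Int.castRingHom ℚ) := by
    ext i j
    rw [← hM' i j]
    rfl
  have hdb : Algebra.discr ℚ (b' : Fin 3 → K) = (discr K : ℚ) := by
    rw [coe_discr]
    have := Algebra.discr_reindex ℚ (integralBasis K) σ
    rw [← this]
    congr 1
    exact Module.Basis.coe_reindex _ _
  have h1 : Algebra.discr ℚ (e : Fin 3 → K) = ((Matrix.of M).det : ℚ) ^ 2 * (discr K : ℚ) := by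
    have h2 := Algebra.discr_of_matrix_vecMul (A := ℚ) (b' : Fin 3 → K) (b'.toMatrix e)
    rw [Module.Basis.toMatrix_map_vecMul] at h2
    rw [h2, hM]
    have h3 : ((Matrix.of M).map (Int.castRingHom ℚ)).det = ((Matrix.of M).det : ℚ) := by
      have := (RingHom.map_det (Int.castRingHom ℚ) (Matrix.of M))
      rw [RingHom.mapMatrix_apply] at this
      rw [← this]
      rfl
    rw [h3, hdb]
  refine ⟨(Matrix.of M).det, ?_, ?_⟩
  · intro h0
    have h2 := Algebra.discr_not_zero_of_basis ℚ e
    rw [h1, h0] at h2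
    simp at h2
  · rw [hd] at h1
    exact_mod_cast h1

end Pool.Agent.K1H22.CP
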