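import Pool.Agent.K1H46.CP.Stm
import Pool.Agent.R365.QP.SqP

/-! # Cubic forms whose Hessian is divisible by a large prime -/

set_option autoImplicit false

namespace Pool.Agent.K1H22.CP

open Finset Pool.Agent.K1H46.CP

/-- integers of absolute value at most `N` in one class modulo `p` -/
theorem cls (N p : ℕ) (hp : 0 < p) (S : Finset ℤ) (hS : ∀ a ∈ S, |a| ≤ (N : ℤ))
    (hc : ∀ a ∈ S, ∀ b ∈ S, (p : ℤ) ∣ a - b) : (S.card : ℝ) ≤ 2 * N / p + 1 := by
  have h := Pool.Agent.R365.QP.PSQ.card_class p hp (2 * N) S hc (by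
    intro a ha b hb
    have h1 := abs_sub a b
    have h2 : |a - b| ≤ 2 * (N : ℤ) := by
      have := hS a ha
      have := hS b hb
      linarith [abs_sub a b]
    have h3 : ((|a - b| : ℤ) : ℝ) ≤ ((2 * (N : ℤ) : ℤ) : ℝ) := by exact_mod_cast h2
    rw [Int.cast_abs] at h3
    simpa using h3)
  have h1 : (S.card : ℝ) ≤ (⌊2 * (N : ℝ) / p⌋₊ : ℝ) + 1 := by exact_mod_cast h
  have h2 : (⌊2 * (N : ℝ) / p⌋₊ : ℝ) ≤ 2 * (N : ℝ) / p := Nat.floor_le (by positivity)
  linarith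

/-- the interval -/
noncomputable def I (N : ℕ) : Finset ℤ := Icc (-(N : ℤ)) N

theorem mem_I {N : ℕ} {a : ℤ} : a ∈ I N ↔ |a| ≤ (N : ℤ) := by
  rw [I, mem_Icc, abs_le]

theorem card_I (N : ℕ) (hN : 1 ≤ N) : ((I N).card : ℝ) ≤ 3 * N := by
  have h : (I N).card = 2 * N + 1 := by
    rw [I, Int.card_Icc]; omega
  rw [h]; push_cast
  have : (1 : ℝ) ≤ N := by exact_mod_cast hN
  linarith

/-- the number of prime divisors of a small number -/
theorem card_pf (N m : ℕ) (hN : 1 ≤ N) (hm : m ≠ 0) (hle : m ≤ 4 * N ^ 2) :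
    (m.primeFactors.card : ℝ) ≤ 4 * (1 + Real.log N) := by
  have h1 : 2 ^ m.primeFactors.card ≤ ∏ p ∈ m.primeFactors, p :=
    Finset.pow_card_le_prod _ _ _ (fun p hp => (Nat.prime_of_mem_primeFactors hp).two_le)
  have h2 : ∏ p ∈ m.primeFactors, p ≤ m := Nat.le_of_dvd (Nat.pos_of_ne_zero hm) (Nat.prod_primeFactors_dvd m)
  have h3 : (2 : ℝ) ^ m.primeFactors.card ≤ 4 * (N : ℝ) ^ 2 := by
    exact_mod_cast h1.trans (h2.trans hle)
  have hN' : (1 : ℝ) ≤ N := by exact_mod_cast hN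
  have h4 := Real.log_le_log (by positivity) h3
  rw [Real.log_pow, Real.log_mul (by norm_num) (by positivity), Real.log_pow] at h4
  have h5 : Real.log 4 = 2 * Real.log 2 := by
    rw [show (4 : ℝ) = 2 ^ 2 by norm_num, Real.log_pow]; norm_num
  have h6 : (1 / 2 : ℝ) < Real.log 2 := by linarith [Real.log_two_gt_d9]
  have h7 : 0 ≤ Real.log N := Real.log_nonneg hN'
  rw [h5] at h4
  push_cast at h4
  nlinarith

/-- (A) the first coefficient of the Hessian is zero -/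
theorem partA (N : ℕ) (hN : 1 ≤ N) (E : Finset Q4)
    (hE : ∀ v ∈ E, Box N v ∧ v.1 ≠ 0 ∧ v.2.1 ^ 2 - 3 * v.1 * v.2.2.1 = 0) :
    (E.card : ℝ) ≤ 27 * (N : ℝ) ^ 3 := by
  have h : E.card ≤ (I N ×ˢ I N ×ˢ I N).card := by
    apply Finset.card_le_card_of_injOn (fun v => (v.1, v.2.1, v.2.2.2))
    · intro v hv
      obtain ⟨h1, h2, h3, h4⟩ := (hE v hv).1
      simp only [coe_product, Set.mem_prod, mem_coe, mem_I]
      exact ⟨h1, h2, h4⟩
    · intro v hv w hw hvw
      obtain ⟨a, b, c, d⟩ := v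
      obtain ⟨a', b', c', d'⟩ := w
      simp only [Prod.mk.injEq] at hvw
      obtain ⟨rfl, rfl, rfl⟩ := hvw
      have h1 := (hE _ hv).2
      have h2 := (hE _ hw).2
      simp only at h1 h2
      have h3 : 3 * a * c = 3 * a * c' := by linarith [h1.2, h2.2]
      have h4 : c = c' := mul_left_cancel₀ (mul_ne_zero (by norm_num) h1.1) h3
      rw [h4]
  rw [card_product, card_product] at h
  have h1 : (E.card : ℝ) ≤ ((I N).card : ℝ) * (((I N).card : ℝ) * ((I N).card : ℝ)) := by exact_mod_cast h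
  have h2 := card_I N hN
  have h3 : (0 : ℝ) ≤ (I N).card := by positivity
  calc (E.card : ℝ) ≤ ((I N).card : ℝ) * (((I N).card : ℝ) * ((I N).card : ℝ)) := h1
    _ ≤ (3 * N) * ((3 * N) * (3 * N)) := by gcongr
    _ = 27 * (N : ℝ) ^ 3 := by ring

/-- (B) the prime does not divide the leading coefficient -/
theorem partB (N P : ℕ) (hN : 1 ≤ N) (hP : 5 ≤ P) (E : Finset Q4)
    (hE : ∀ v ∈ E, Box N v ∧ v.2.1 ^ 2 - 3 * v.1 * v.2.2.1 ≠ 0 ∧
      ∃ p : ℕ, p.Prime ∧ P < p ∧ Tri p v ∧ ¬ (p : ℤ) ∣ v.1) :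
    (E.card : ℝ) ≤ 27 * (N : ℝ) ^ 3 * (4 * (1 + Real.log N) * (2 * N / P + 1)) := by
  classical
  have hmap : ∀ v ∈ E, (v.1, v.2.1, v.2.2.1) ∈ I N ×ˢ I N ×ˢ I N := by
    intro v hv
    obtain ⟨h1, h2, h3, h4⟩ := (hE v hv).1
    simp only [mem_product, mem_I]
    exact ⟨h1, h2, h3⟩
  have hPr : (0 : ℝ) < P := by exact_mod_cast (by omega : 0 < P)
  have hlog : 0 ≤ Real.log N := Real.log_nonneg (by exact_mod_cast hN)
  have hfib : ∀ y ∈ I N ×ˢ I N ×ˢ I N,
      ((E.filter (fun v => (v.1, v.2.1, v.2.2.1) = y)).card : ℝ) ≤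
        4 * (1 + Real.log N) * (2 * N / P + 1) := by
    rintro ⟨a, b, c⟩ hy
    simp only [mem_product, mem_I] at hy
    obtain ⟨ha, hb, hc⟩ := hy
    by_cases h0 : b ^ 2 - 3 * a * c = 0
    · have : E.filter (fun v => (v.1, v.2.1, v.2.2.1) = (a, b, c)) = ∅ := by
        rw [Finset.filter_eq_empty_iff]
        rintro ⟨a', b', c', d'⟩ hv heq
        simp only [Prod.mk.injEq] at heq
        obtain ⟨rfl, rfl, rfl⟩ := heq
        exact (hE _ hv).2.1 h0
      rw [this]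
      simp only [card_empty, Nat.cast_zero]
      positivity
    · set m : ℕ := (b ^ 2 - 3 * a * c).natAbs with hm
      have hm0 : m ≠ 0 := by rw [hm, Int.natAbs_ne_zero]; exact h0
      have hmle : m ≤ 4 * N ^ 2 := by
        have : |b ^ 2 - 3 * a * c| ≤ 4 * (N : ℤ) ^ 2 := by
          have e1 : |b ^ 2| ≤ (N : ℤ) ^ 2 := by
            rw [abs_pow]; exact pow_le_pow_left₀ (abs_nonneg _) hb 2
          have e2 : |3 * a * c| ≤ 3 * (N : ℤ) ^ 2 := by
            rw [abs_mul, abs_mul, show |(3 : ℤ)| = 3 by norm_num]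
            nlinarith [mul_le_mul ha hc (abs_nonneg c) (by positivity : (0 : ℤ) ≤ N)]
          calc |b ^ 2 - 3 * a * c| ≤ |b ^ 2| + |3 * a * c| := abs_sub _ _
            _ ≤ _ := by linarith
        rw [hm]
        zify
        exact this
      have hsub : E.filter (fun v => (v.1, v.2.1, v.2.2.1) = (a, b, c)) ⊆
          (m.primeFactors.filter (fun p => P < p)).biUnion (fun p =>
            E.filter (fun v => (v.1, v.2.1, v.2.2.1) = (a, b, c) ∧
              (p : ℤ) ∣ b * c - 9 * a * v.2.2.2 ∧ ¬ (p : ℤ) ∣ a)) := by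
        rintro ⟨a', b', c', d'⟩ hv
        rw [mem_filter] at hv
        obtain ⟨hv, heq⟩ := hv
        simp only [Prod.mk.injEq] at heq
        obtain ⟨rfl, rfl, rfl⟩ := heq
        obtain ⟨-, -, p, hp, hPp, ht, hpa⟩ := hE _ hv
        rw [mem_biUnion]
        refine ⟨p, ?_, ?_⟩
        · rw [mem_filter, Nat.mem_primeFactors]
          refine ⟨⟨hp, ?_, hm0⟩, hPp⟩
          rw [hm, ← Int.natCast_dvd]
          exact ht.1
        · rw [mem_filter]
          exact ⟨hv, rfl, ht.2.1, hpa⟩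
      have h1 := (card_le_card hsub).trans card_biUnion_le
      have h2 : ((E.filter (fun v => (v.1, v.2.1, v.2.2.1) = (a, b, c))).card : ℝ) ≤
          ∑ p ∈ m.primeFactors.filter (fun p => P < p), ((E.filter (fun v => (v.1, v.2.1, v.2.2.1) = (a, b, c) ∧
              (p : ℤ) ∣ b * c - 9 * a * v.2.2.2 ∧ ¬ (p : ℤ) ∣ a)).card : ℝ) := by
        exact_mod_cast h1
      have h3 : ∀ p ∈ m.primeFactors.filter (fun p => P < p),
          ((E.filter (fun v => (v.1, v.2.1, v.2.2.1) = (a, b, c) ∧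
              (p : ℤ) ∣ b * c - 9 * a * v.2.2.2 ∧ ¬ (p : ℤ) ∣ a)).card : ℝ) ≤ 2 * N / P + 1 := by
        intro p hp
        rw [mem_filter] at hp
        obtain ⟨hpm, hPp⟩ := hp
        have hpp := Nat.prime_of_mem_primeFactors hpm
        set F := E.filter (fun v => (v.1, v.2.1, v.2.2.1) = (a, b, c) ∧
              (p : ℤ) ∣ b * c - 9 * a * v.2.2.2 ∧ ¬ (p : ℤ) ∣ a) with hF
        have himg : (F.image (fun v => v.2.2.2)).card = F.card := by
          apply card_image_of_injOn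
          rintro ⟨a1, b1, c1, d1⟩ hv ⟨a2, b2, c2, d2⟩ hw hvw
          rw [hF, coe_filter] at hv hw
          obtain ⟨-, hv, -⟩ := hv
          obtain ⟨-, hw, -⟩ := hw
          simp only [Prod.mk.injEq] at hv hw hvw
          obtain ⟨rfl, rfl, rfl⟩ := hv
          obtain ⟨rfl, rfl, rfl⟩ := hw
          rw [hvw]
        have h4 := cls N p hpp.pos (F.image (fun v => v.2.2.2)) (by
          intro d hd
          rw [mem_image] at hd
          obtain ⟨v, hv, rfl⟩ := hd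
          rw [hF, mem_filter] at hv
          exact (hE v hv.1).1.2.2.2) (by
          intro d hd d' hd'
          rw [mem_image] at hd hd'
          obtain ⟨v, hv, rfl⟩ := hd
          obtain ⟨w, hw, rfl⟩ := hd'
          rw [hF, mem_filter] at hv hw
          have h5 : (p : ℤ) ∣ 9 * a * (v.2.2.2 - w.2.2.2) := by
            have e : (b * c - 9 * a * w.2.2.2) - (b * c - 9 * a * v.2.2.2) =
                9 * a * (v.2.2.2 - w.2.2.2) := by ring
            rw [← e]
            exact dvd_sub hw.2.2.1 hv.2.2.1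
          have hpZ : Prime (p : ℤ) := Nat.prime_iff_prime_int.1 hpp
          rcases hpZ.dvd_or_dvd h5 with h6 | h6
          · exfalso
            rcases hpZ.dvd_or_dvd h6 with h7 | h7
            · have h8 : p ∣ 9 := by exact_mod_cast h7
              have h9 : p ∣ 3 := by
                have : p ∣ 3 ^ 2 := by norm_num; exact h8
                exact hpp.dvd_of_dvd_pow this
              have := Nat.le_of_dvd (by norm_num) h9
              omega
            · exact hv.2.2.2 h7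
          · exact h6)
        rw [himg] at h4
        refine h4.trans ?_
        have h5 : (P : ℝ) ≤ p := by exact_mod_cast hPp.le
        gcongr
      calc _ ≤ ∑ p ∈ m.primeFactors.filter (fun p => P < p), (2 * (N : ℝ) / P + 1) :=
            h2.trans (sum_le_sum h3)
        _ = ((m.primeFactors.filter (fun p => P < p)).card : ℝ) * (2 * (N : ℝ) / P + 1) := by
            rw [sum_const, nsmul_eq_mul]
        _ ≤ (m.primeFactors.card : ℝ) * (2 * (N : ℝ) / P + 1) := by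
            gcongr
            exact filter_subset _ _
        _ ≤ _ := by
            gcongr
            exact card_pf N m hN hm0 hmle
  have h1 := card_eq_sum_card_fiberwise (f := fun v : Q4 => (v.1, v.2.1, v.2.2.1)) (s := E)
    (t := I N ×ˢ I N ×ˢ I N) (fun v hv => by exact_mod_cast hmap v hv)
  have h2 : (E.card : ℝ) = ∑ y ∈ I N ×ˢ I N ×ˢ I N,
      ((E.filter (fun v => (v.1, v.2.1, v.2.2.1) = y)).card : ℝ) := by exact_mod_cast h1
  have h3 := card_I N hN
  rw [h2]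
  refine (sum_le_sum hfib).trans ?_
  rw [sum_const, nsmul_eq_mul, card_product, card_product]
  push_cast
  have h4 : ((I N).card : ℝ) * (((I N).card : ℝ) * ((I N).card : ℝ)) ≤ 27 * (N : ℝ) ^ 3 := by
    calc ((I N).card : ℝ) * (((I N).card : ℝ) * ((I N).card : ℝ)) ≤ (3 * N) * ((3 * N) * (3 * N)) := by gcongr
      _ = 27 * (N : ℝ) ^ 3 := by ring
  exact mul_le_mul_of_nonneg_right h4 (by positivity)

/-- (C) the prime divides the leading coefficient -/
theorem partC (N P : ℕ) (hN : 1 ≤ N) (hP : 5 ≤ P) (E : Finset Q4)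
    (hE : ∀ v ∈ E, Box N v ∧ v.1 ≠ 0 ∧
      ∃ p : ℕ, p.Prime ∧ P < p ∧ (p : ℤ) ∣ v.1 ∧ (p : ℤ) ∣ v.2.1 ∧ (p : ℤ) ∣ v.2.2.1) :
    (E.card : ℝ) ≤ 54 * (N : ℝ) ^ 4 / P := by
  classical
  have hPr : (1 : ℝ) ≤ P := by exact_mod_cast (by omega : 1 ≤ P)
  have hNr : (1 : ℝ) ≤ N := by exact_mod_cast hN
  have hsub : E ⊆ (Ioc P N).biUnion (fun p => E.filter (fun v =>
      (p : ℤ) ∣ v.1 ∧ (p : ℤ) ∣ v.2.1 ∧ (p : ℤ) ∣ v.2.2.1)) := by
    intro v hv
    obtain ⟨hb, h0, p, hp, hPp, h1, h2, h3⟩ := hE v hv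
    rw [mem_biUnion]
    refine ⟨p, ?_, ?_⟩
    · rw [mem_Ioc]
      refine ⟨hPp, ?_⟩
      have h4 : p ∣ v.1.natAbs := Int.natCast_dvd.1 h1
      have h5 := Nat.le_of_dvd (Int.natAbs_pos.2 h0) h4
      have h6 : v.1.natAbs ≤ N := by
        have := hb.1
        zify
        exact this
      exact h5.trans h6
    · rw [mem_filter]
      exact ⟨hv, h1, h2, h3⟩
  have h1 := (card_le_card hsub).trans card_biUnion_le
  have h2 : (E.card : ℝ) ≤ ∑ p ∈ Ioc P N, ((E.filter (fun v =>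
      (p : ℤ) ∣ v.1 ∧ (p : ℤ) ∣ v.2.1 ∧ (p : ℤ) ∣ v.2.2.1)).card : ℝ) := by exact_mod_cast h1
  have h3 : ∀ p ∈ Ioc P N, ((E.filter (fun v =>
      (p : ℤ) ∣ v.1 ∧ (p : ℤ) ∣ v.2.1 ∧ (p : ℤ) ∣ v.2.2.1)).card : ℝ) ≤
      54 * (N : ℝ) ^ 4 * (((p : ℝ)) ^ 2)⁻¹ := by
    intro p hp
    rw [mem_Ioc] at hp
    have hp0 : 0 < p := by omega
    have hpr : (1 : ℝ) ≤ p := by exact_mod_cast (by omega : 1 ≤ p)
    have hpN : (p : ℝ) ≤ N := by exact_mod_cast hp.2
    set A := (I N).filter (fun a => (p : ℤ) ∣ a ∧ a ≠ 0) with hA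
    set B := (I N).filter (fun a => (p : ℤ) ∣ a) with hB
    have hcard : (E.filter (fun v => (p : ℤ) ∣ v.1 ∧ (p : ℤ) ∣ v.2.1 ∧ (p : ℤ) ∣ v.2.2.1)) ⊆
        A ×ˢ B ×ˢ B ×ˢ I N := by
      intro v hv
      rw [mem_filter] at hv
      obtain ⟨hv, g1, g2, g3⟩ := hv
      obtain ⟨⟨b1, b2, b3, b4⟩, h0, -⟩ := hE v hv
      simp only [mem_product, hA, hB, mem_filter, mem_I]
      exact ⟨⟨b1, g1, h0⟩, ⟨b2, g2⟩, ⟨b3, g3⟩, b4⟩
    have hcB : (B.card : ℝ) ≤ 2 * N / p + 1 := by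
      apply cls N p hp0
      · intro a ha
        rw [hB, mem_filter, mem_I] at ha
        exact ha.1
      · intro a ha b hb
        rw [hB, mem_filter] at ha hb
        exact dvd_sub ha.2 hb.2
    have hAB : A.card + 1 ≤ B.card := by
      have h0A : (0 : ℤ) ∉ A := by rw [hA, mem_filter]; simp
      rw [← card_insert_of_notMem h0A]
      apply card_le_card
      intro a ha
      rw [mem_insert] at ha
      rcases ha with rfl | ha
      · rw [hB, mem_filter, mem_I]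
        simp
      · rw [hA, mem_filter] at ha
        rw [hB, mem_filter]
        exact ⟨ha.1, ha.2.1⟩
    have hcA : (A.card : ℝ) ≤ 2 * N / p := by
      have : ((A.card + 1 : ℕ) : ℝ) ≤ B.card := by exact_mod_cast hAB
      push_cast at this
      linarith
    have hcB' : (B.card : ℝ) ≤ 3 * N / p := by
      refine hcB.trans ?_
      have : (1 : ℝ) ≤ N / p := by rw [le_div_iff₀ (by linarith)]; linarith
      have e : 3 * (N : ℝ) / p = 2 * N / p + N / p := by ring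
      linarith
    have h4 := card_le_card hcard
    rw [card_product, card_product, card_product] at h4
    have h5 : ((E.filter (fun v => (p : ℤ) ∣ v.1 ∧ (p : ℤ) ∣ v.2.1 ∧ (p : ℤ) ∣ v.2.2.1)).card : ℝ) ≤
        (A.card : ℝ) * ((B.card : ℝ) * ((B.card : ℝ) * ((I N).card : ℝ))) := by exact_mod_cast h4
    refine h5.trans ?_
    have h6 := card_I N hN
    calc (A.card : ℝ) * ((B.card : ℝ) * ((B.card : ℝ) * ((I N).card : ℝ)))
        ≤ (2 * N / p) * ((3 * N / p) * ((3 * N / p) * (3 * N))) := by gcongr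
      _ = 54 * (N : ℝ) ^ 4 * (((p : ℝ)) ^ 3)⁻¹ := by field_simp; ring
      _ ≤ 54 * (N : ℝ) ^ 4 * (((p : ℝ)) ^ 2)⁻¹ := by
          have : ((p : ℝ) ^ 3)⁻¹ ≤ ((p : ℝ) ^ 2)⁻¹ := by
            apply inv_anti₀ (by positivity)
            exact pow_le_pow_right₀ hpr (by norm_num)
          exact mul_le_mul_of_nonneg_left this (by positivity)
  refine h2.trans ((sum_le_sum h3).trans ?_)
  rw [← mul_sum]
  by_cases hle : P ≤ N
  · have h4 := sum_Ioc_inv_sq_le_sub (α := ℝ) (k := P) (n := N) (by omega) hle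
    have h5 : (0 : ℝ) ≤ (N : ℝ)⁻¹ := by positivity
    calc 54 * (N : ℝ) ^ 4 * ∑ i ∈ Ioc P N, ((i : ℝ) ^ 2)⁻¹ ≤ 54 * (N : ℝ) ^ 4 * ((P : ℝ)⁻¹) := by
          gcongr
          linarith
      _ = _ := by rw [div_eq_mul_inv]
  · rw [Ioc_eq_empty (by omega), sum_empty, mul_zero]
    positivity

theorem t_TRI : S_TRI := by
  classical
  refine ⟨297, by norm_num, ?_⟩
  intro N P E hN hP hE
  have hPr : (1 : ℝ) ≤ P := by exact_mod_cast (by omega : 1 ≤ P)
  have hNr : (1 : ℝ) ≤ N := by exact_mod_cast hN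
  have hlog : 0 ≤ Real.log N := Real.log_nonneg hNr
  set E1 := E.filter (fun v => v.2.1 ^ 2 - 3 * v.1 * v.2.2.1 = 0) with hE1
  set E2 := E.filter (fun v => v.2.1 ^ 2 - 3 * v.1 * v.2.2.1 ≠ 0 ∧
      ∃ p : ℕ, p.Prime ∧ P < p ∧ Tri p v ∧ ¬ (p : ℤ) ∣ v.1) with hE2
  set E3 := E.filter (fun v => ∃ p : ℕ, p.Prime ∧ P < p ∧ (p : ℤ) ∣ v.1 ∧ (p : ℤ) ∣ v.2.1 ∧
      (p : ℤ) ∣ v.2.2.1) with hE3
  have hsub : E ⊆ E1 ∪ E2 ∪ E3 := by
    intro v hv
    obtain ⟨hb, h0, p, hp, hPp, ht⟩ := hE v hv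
    rw [mem_union, mem_union]
    by_cases h1 : v.2.1 ^ 2 - 3 * v.1 * v.2.2.1 = 0
    · left; left
      rw [hE1, mem_filter]
      exact ⟨hv, h1⟩
    · by_cases hpa : (p : ℤ) ∣ v.1
      · right
        rw [hE3, mem_filter]
        have hpZ : Prime (p : ℤ) := Nat.prime_iff_prime_int.1 hp
        have hb : (p : ℤ) ∣ v.2.1 := by
          apply hpZ.dvd_of_dvd_pow (n := 2)
          have h2 : (p : ℤ) ∣ 3 * v.1 * v.2.2.1 := Dvd.dvd.mul_right (Dvd.dvd.mul_left hpa _) _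
          have := dvd_add ht.1 h2
          simpa using this
        have hc : (p : ℤ) ∣ v.2.2.1 := by
          apply hpZ.dvd_of_dvd_pow (n := 2)
          have h2 : (p : ℤ) ∣ 3 * v.2.1 * v.2.2.2 := Dvd.dvd.mul_right (Dvd.dvd.mul_left hb _) _
          have := dvd_add ht.2.2 h2
          simpa using this
        exact ⟨hv, p, hp, hPp, hpa, hb, hc⟩
      · left; right
        rw [hE2, mem_filter]
        exact ⟨hv, h1, p, hp, hPp, ht, hpa⟩
  have hA := partA N hN E1 (by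
    intro v hv
    rw [hE1, mem_filter] at hv
    exact ⟨(hE v hv.1).1, (hE v hv.1).2.1, hv.2⟩)
  have hB := partB N P hN hP E2 (by
    intro v hv
    rw [hE2, mem_filter] at hv
    exact ⟨(hE v hv.1).1, hv.2⟩)
  have hC := partC N P hN hP E3 (by
    intro v hv
    rw [hE3, mem_filter] at hv
    exact ⟨(hE v hv.1).1, (hE v hv.1).2.1, hv.2⟩)
  have h1 : (E.card : ℝ) ≤ E1.card + E2.card + E3.card := by
    have h2 := card_le_card hsub
    have h3 := card_union_le (E1 ∪ E2) E3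
    have h4 := card_union_le E1 E2
    exact_mod_cast (by omega : E.card ≤ E1.card + E2.card + E3.card)
  set L := Real.log N with hL
  set X : ℝ := (N : ℝ) ^ 4 / P with hX
  set Y : ℝ := (N : ℝ) ^ 3 with hY
  have hX0 : 0 ≤ X := by positivity
  have hY0 : 0 ≤ Y := by positivity
  have hBe : 27 * Y * (4 * (1 + L) * (2 * N / P + 1)) = (1 + L) * (216 * X + 108 * Y) := by
    rw [hX, hY]; field_simp; ring
  have hCe : 54 * (N : ℝ) ^ 4 / P = 54 * X := by rw [hX]; ring
  rw [hBe] at hB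
  rw [hCe] at hC
  have : (E.card : ℝ) ≤ 27 * Y + (1 + L) * (216 * X + 108 * Y) + 54 * X := by linarith
  refine this.trans ?_
  nlinarith [mul_nonneg hlog hX0, mul_nonneg hlog hY0]

end Pool.Agent.K1H22.CP
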